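import Mathlib

/-!
# The density-modified quotients of compact spaces are `k₂`-Hausdorff
-/

namespace Pool.Agent.Results.MP_a8a70f_gt.K2Hausdorff

open Set Filter Topology

universe u v

variable {Y : Type u}

/-- The equivalence relation on `Y` whose only class with more than one point may be `A`. -/
def collapse (A : Set Y) : Setoid Y where
  r x y := x = y ∨ (x ∈ A ∧ y ∈ A)
  iseqv := by
    refine ⟨fun x => Or.inl rfl, ?_, ?_⟩
    · rintro x y (h | ⟨h1, h2⟩)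
      · exact Or.inl h.symm
      · exact Or.inr ⟨h2, h1⟩
    · rintro x y z (h | ⟨h1, h2⟩) (h' | ⟨h1', h2'⟩)
      · exact Or.inl (h.trans h')
      · exact Or.inr ⟨h ▸ h1', h2'⟩
      · exact Or.inr ⟨h1, h' ▸ h2⟩
      · exact Or.inr ⟨h1, h2'⟩

/-- The set `Y / A` underlying `FMQ(Y, A, D_Y)`. -/
def FMQ (A : Set Y) : Type u := Quotient (collapse A)

/-- The quotient map `q : Y → Y / A`. -/
def q (A : Set Y) (y : Y) : FMQ A := Quotient.mk (collapse A) y

theorem q_eq_iff (A : Set Y) (x y : Y) : q A x = q A y ↔ x = y ∨ (x ∈ A ∧ y ∈ A) :=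
  ⟨fun h => Quotient.exact h, fun h => Quotient.sound h⟩

theorem q_surjective (A : Set Y) : Function.Surjective (q A) := fun x => Quotient.exists_rep x

/-- The topology of `FMQ(Y, A, D_Y)`: a set `U` is open iff `q⁻¹(U)` is open in `Y` and, in case
the point `∗ = q(A)` is in `U`, moreover `q⁻¹(U)` is dense in `Y`. -/
instance [TopologicalSpace Y] (A : Set Y) : TopologicalSpace (FMQ A) where
  IsOpen U := IsOpen (q A ⁻¹' U) ∧ ((∃ a ∈ A, q A a ∈ U) → Dense (q A ⁻¹' U))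
  isOpen_univ := ⟨isOpen_univ, fun _ => dense_univ⟩
  isOpen_inter U V hU hV := by
    refine ⟨hU.1.inter hV.1, ?_⟩
    rintro ⟨a, ha, haU, haV⟩
    exact (hU.2 ⟨a, ha, haU⟩).inter_of_isOpen_left (hV.2 ⟨a, ha, haV⟩) hU.1
  isOpen_sUnion S hS := by
    refine ⟨?_, ?_⟩
    · rw [Set.preimage_sUnion]
      exact isOpen_biUnion fun U hU => (hS U hU).1
    · rintro ⟨a, ha, U, hU, haU⟩
      exact ((hS U hU).2 ⟨a, ha, haU⟩).mono fun y hy => ⟨U, hU, hy⟩

theorem isOpen_iff [TopologicalSpace Y] (A : Set Y) (U : Set (FMQ A)) :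
    IsOpen U ↔ IsOpen (q A ⁻¹' U) ∧ ((∃ a ∈ A, q A a ∈ U) → Dense (q A ⁻¹' U)) := Iff.rfl

/-- A space `X` is `k₂`-Hausdorff if for every compact Hausdorff space `K` and every continuous
`f : K → X` the set of all `(a, b)` with `f a = f b` is closed. -/
def IsK2Hausdorff (X : Type u) [TopologicalSpace X] : Prop :=
  ∀ (K : Type v) [TopologicalSpace K] [CompactSpace K] [T2Space K] (f : K → X), Continuous f →
    IsClosed {p : K × K | f p.1 = f p.2}

section

variable [TopologicalSpace Y] {A : Set Y}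

omit [TopologicalSpace Y] in
theorem preimage_image {S : Set Y} (hS : Disjoint S A) : q A ⁻¹' (q A '' S) = S := by
  ext y
  constructor
  · rintro ⟨s, hs, h⟩
    rcases (q_eq_iff A s y).1 h with rfl | ⟨h1, -⟩
    · exact hs
    · exact absurd h1 (Set.disjoint_left.1 hS hs)
  · exact fun hy => ⟨y, hy, rfl⟩

theorem isOpen_image {U : Set Y} (hU : IsOpen U) (hUA : Disjoint U A) : IsOpen (q A '' U) := by
  rw [isOpen_iff, preimage_image hUA]
  refine ⟨hU, ?_⟩
  rintro ⟨a, ha, h⟩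
  have h1 : a ∈ q A ⁻¹' (q A '' U) := h
  rw [preimage_image hUA] at h1
  exact absurd ha (Set.disjoint_left.1 hUA h1)

theorem isClosed_image {N : Set Y} (hN : IsClosed N) (hNi : interior N = ∅)
    (hNA : Disjoint N A) : IsClosed (q A '' N) := by
  rw [← isOpen_compl_iff, isOpen_iff, Set.preimage_compl, preimage_image hNA]
  exact ⟨hN.isOpen_compl, fun _ => interior_eq_empty_iff_dense_compl.1 hNi⟩

/-- The main argument. -/
theorem key [T2Space Y] [RegularSpace Y] (hcrowd : ∀ y : Y, ¬ IsOpen ({y} : Set Y))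
    (hA : IsClosed A) {K : Type v} [TopologicalSpace K] [CompactSpace K] [T2Space K]
    {f : K → FMQ A} (hf : Continuous f) (a : K) {s : Y} (hs : s ∈ A) (hfa : f a = q A s)
    {y : Y} (hy : y ∉ A)
    (hacc : ∀ Q : Set K, IsOpen Q → a ∈ Q → ∀ W : Set Y, IsOpen W → y ∈ W →
      ∃ a' ∈ Q, f a' ∈ q A '' (W \ A)) : False := by
  classical
  -- the open set `W₀`
  obtain ⟨T, hT1, hT2, hT3⟩ := exists_mem_nhds_isClosed_subset (hA.isOpen_compl.mem_nhds hy)
  obtain ⟨W₀, hW₀T, hW₀, hyW₀⟩ := mem_nhds_iff.1 hT1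
  have hclW : Disjoint (closure W₀) A :=
    Set.disjoint_left.2 fun z hz hzA => hT3 (closure_minimal hW₀T hT2 hz) hzA
  -- the maximal cellular family
  obtain ⟨𝒰, h𝒰⟩ := zorn_subset {𝒰 : Set (Set Y) | 𝒰.PairwiseDisjoint id ∧
      ∀ U ∈ 𝒰, IsOpen U ∧ U.Nonempty ∧ U ⊆ W₀ ∧ y ∉ closure U} (by
    intro c hc hchain
    refine ⟨⋃₀ c, ⟨?_, ?_⟩, fun s hs => Set.subset_sUnion_of_mem hs⟩
    · rintro U ⟨c1, hc1, hU⟩ V ⟨c2, hc2, hV⟩ hne
      rcases hchain.total hc1 hc2 with h | h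
      · exact (hc hc2).1 (h hU) hV hne
      · exact (hc hc1).1 hU (h hV) hne
    · rintro U ⟨c1, hc1, hU⟩
      exact (hc hc1).2 U hU)
  have hdisj := h𝒰.prop.1
  have hprop := h𝒰.prop.2
  have hdense : ∀ O : Set Y, IsOpen O → (O ∩ W₀).Nonempty → (O ∩ W₀ ∩ ⋃₀ 𝒰).Nonempty := by
    intro O hO hne
    by_contra hcon
    rw [Set.not_nonempty_iff_eq_empty] at hcon
    obtain ⟨z, hz⟩ : ∃ z ∈ O ∩ W₀, z ≠ y := by
      by_contra h
      push Not at h
      obtain ⟨z, hz⟩ := hne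
      have h1 : O ∩ W₀ = {y} := by
        apply Set.eq_singleton_iff_unique_mem.2
        exact ⟨h z hz ▸ hz, h⟩
      exact hcrowd y (h1 ▸ hO.inter hW₀)
    obtain ⟨hz1, hz2⟩ := hz
    obtain ⟨U₁, U₂, hU₁, hU₂, hzU, hyU, hUU⟩ := t2_separation hz2
    have hnew : U₁ ∩ (O ∩ W₀) ∉ 𝒰 := by
      intro h
      have : z ∈ O ∩ W₀ ∩ ⋃₀ 𝒰 := ⟨hz1, _, h, hzU, hz1⟩
      rw [hcon] at this
      exact this
    apply hnew
    have hins : insert (U₁ ∩ (O ∩ W₀)) 𝒰 ∈ {𝒰 : Set (Set Y) | 𝒰.PairwiseDisjoint id ∧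
      ∀ U ∈ 𝒰, IsOpen U ∧ U.Nonempty ∧ U ⊆ W₀ ∧ y ∉ closure U} := by
      constructor
      · apply Set.PairwiseDisjoint.insert hdisj
        intro V hV _
        change Disjoint (U₁ ∩ (O ∩ W₀)) V
        rw [Set.disjoint_left]
        intro t ht htV
        have : t ∈ O ∩ W₀ ∩ ⋃₀ 𝒰 := ⟨ht.2, V, hV, htV⟩
        rw [hcon] at this
        exact this
      · rintro U (rfl | hU)
        · refine ⟨hU₁.inter (hO.inter hW₀), ⟨z, hzU, hz1⟩, fun t ht => ht.2.2, fun hcl => ?_⟩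
          obtain ⟨t, ht1, ht2⟩ := mem_closure_iff.1 hcl U₂ hU₂ hyU
          exact Set.disjoint_left.1 hUU ht2.1 ht1
        · exact hprop U hU
    exact h𝒰.le_of_ge hins (Set.subset_insert _ _) (Set.mem_insert _ _)
  -- the nowhere dense set `N`
  let N : Set Y := closure W₀ \ ⋃₀ 𝒰
  have hNcl : IsClosed N := isClosed_closure.sdiff (isOpen_sUnion fun U hU => (hprop U hU).1)
  have hNint : interior N = ∅ := by
    by_contra h
    obtain ⟨z, hz⟩ := Set.nonempty_iff_ne_empty.2 h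
    obtain ⟨z', hz'1, hz'2⟩ := mem_closure_iff.1 (interior_subset hz).1 _ isOpen_interior hz
    obtain ⟨t, ⟨ht1, -⟩, ht2⟩ := hdense _ isOpen_interior ⟨z', hz'1, hz'2⟩
    exact (interior_subset ht1).2 ht2
  have hNA : Disjoint N A := hclW.mono_left Set.sdiff_subset
  have hΦ : IsClosed (f ⁻¹' (q A '' N)) := (isClosed_image hNcl hNint hNA).preimage hf
  have haΦ : a ∉ f ⁻¹' (q A '' N) := by
    rintro ⟨n, hn, hn'⟩
    rw [hfa] at hn'
    rcases (q_eq_iff A n s).1 hn' with h | ⟨h, -⟩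
    · exact Set.disjoint_left.1 hNA hn (h ▸ hs)
    · exact Set.disjoint_left.1 hNA hn h
  obtain ⟨P, Q, hP, hQ, hΦP, haQ, hPQ⟩ := SeparatedNhds.of_isCompact_isCompact hΦ.isCompact
    (isCompact_singleton (x := a)) (Set.disjoint_singleton_right.2 haΦ)
  have haQ : a ∈ Q := haQ rfl
  -- infinitely many members of the family are met
  let 𝒰' : Set (Set Y) := {U ∈ 𝒰 | ∃ x ∈ Q, f x ∈ q A '' U}
  have hinf : 𝒰'.Infinite := by
    intro hfin
    let C : Set Y := ⋃ U ∈ 𝒰', closure U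
    have hC : IsClosed C := hfin.isClosed_biUnion fun U _ => isClosed_closure
    have hyC : y ∉ C := by
      intro h
      simp only [C, Set.mem_iUnion] at h
      obtain ⟨U, hU, hyU⟩ := h
      exact (hprop U hU.1).2.2.2 hyU
    obtain ⟨a', ha', w, ⟨⟨hw1, hw2⟩, hwA⟩, hfw⟩ := hacc Q hQ haQ (W₀ \ C) (hW₀.sdiff hC) ⟨hyW₀, hyC⟩
    have hwU : w ∈ ⋃₀ 𝒰 := by
      by_contra hcon
      have h1 : a' ∈ f ⁻¹' (q A '' N) := ⟨w, ⟨subset_closure hw1, hcon⟩, hfw⟩
      exact Set.disjoint_left.1 hPQ (hΦP h1) ha'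
    obtain ⟨U, hU, hwU⟩ := hwU
    apply hw2
    have hU' : U ∈ 𝒰' := ⟨hU, a', ha', w, hwU, hfw⟩
    exact Set.mem_biUnion hU' (subset_closure hwU)
  choose x hxQ t htU hft using fun U : 𝒰' => U.2.2
  have htU' : ∀ (U : 𝒰') (V : Set Y), V ∈ 𝒰 → t U ∈ V → V = U.1 := by
    intro U V hV htV
    by_contra hne
    exact Set.disjoint_left.1 (hdisj hV U.2.1 hne) htV (htU U)
  -- the second nowhere dense set
  let S : Set Y := Set.range t
  have hScl : ∀ V ∈ 𝒰, ∀ z ∈ closure S ∩ V, ∃ U : 𝒰', U.1 = V ∧ z = t U := by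
    rintro V hV z ⟨hz1, hz2⟩
    have h1 : z ∈ closure (V ∩ S) :=
      mem_closure_iff.2 fun O hO hzO => by
        obtain ⟨w, hw1, hw2⟩ := mem_closure_iff.1 hz1 (O ∩ V) (hO.inter (hprop V hV).1) ⟨hzO, hz2⟩
        exact ⟨w, hw1.1, hw1.2, hw2⟩
    by_cases hVm : V ∈ 𝒰'
    · have h2 : V ∩ S ⊆ {t ⟨V, hVm⟩} := by
        rintro _ ⟨hw, U, rfl⟩
        have h3 := htU' U V hV hw
        have h4 : U = ⟨V, hVm⟩ := Subtype.ext h3.symm
        rw [h4]
        rfl
      have h3 := closure_minimal h2 isClosed_singleton h1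
      exact ⟨⟨V, hVm⟩, rfl, h3⟩
    · exfalso
      obtain ⟨w, -, hw, U, rfl⟩ := mem_closure_iff.1 h1 Set.univ isOpen_univ (Set.mem_univ z)
      exact hVm (htU' U V hV hw ▸ U.2)
  have hSW : closure S ⊆ closure W₀ := closure_mono (by
    rintro _ ⟨U, rfl⟩
    exact (hprop _ U.2.1).2.2.1 (htU U))
  have hSint : interior (closure S) = ∅ := by
    by_contra h
    obtain ⟨z, hz⟩ := Set.nonempty_iff_ne_empty.2 h
    obtain ⟨z', hz'1, hz'2⟩ := mem_closure_iff.1 (hSW (interior_subset hz)) _ isOpen_interior hz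
    obtain ⟨w, ⟨hw1, -⟩, V, hV, hwV⟩ := hdense _ isOpen_interior ⟨z', hz'1, hz'2⟩
    obtain ⟨U, hUV, hwt⟩ := hScl V hV w ⟨interior_subset hw1, hwV⟩
    apply hcrowd w
    have h1 : interior (closure S) ∩ V = {w} := by
      apply Set.eq_singleton_iff_unique_mem.2
      refine ⟨⟨hw1, hwV⟩, ?_⟩
      rintro z ⟨hz1, hz2⟩
      obtain ⟨U', hU'V, hzt⟩ := hScl V hV z ⟨interior_subset hz1, hz2⟩
      have h2 : U' = U := Subtype.ext (hU'V.trans hUV.symm)
      rw [hzt, hwt, h2]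
    rw [← h1]
    exact isOpen_interior.inter (hprop V hV).1
  have hSA : Disjoint (closure S) A := hclW.mono_left hSW
  have hcl : IsClosed (f ⁻¹' (q A '' closure S)) :=
    (isClosed_image isClosed_closure hSint hSA).preimage hf
  have hxinj : Function.Injective x := by
    intro U V hUV
    have h1 : q A (t U) = q A (t V) := by rw [hft, hft, hUV]
    rcases (q_eq_iff A _ _).1 h1 with h | ⟨h, -⟩
    · exact Subtype.ext (htU' U V.1 V.2.1 (h ▸ htU V)).symm
    · exact absurd h (Set.disjoint_left.1 hSA (subset_closure ⟨U, rfl⟩))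
  have : Infinite 𝒰' := hinf.to_subtype
  have hRinf : (Set.range x).Infinite := Set.infinite_range_of_injective hxinj
  obtain ⟨k, hk⟩ := hRinf.exists_accPt_principal
  rw [accPt_iff_nhds] at hk
  have hkcl : k ∈ f ⁻¹' (q A '' closure S) := by
    have h1 : k ∈ closure (Set.range x) := by
      rw [mem_closure_iff_nhds]
      intro O hO
      obtain ⟨z, hz, -⟩ := hk O hO
      exact ⟨z, hz⟩
    refine closure_minimal ?_ hcl h1
    rintro _ ⟨U, rfl⟩
    exact ⟨t U, subset_closure ⟨U, rfl⟩, hft U⟩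
  obtain ⟨n, hn, hfn⟩ := hkcl
  by_cases hnU : n ∈ ⋃₀ 𝒰
  · obtain ⟨V, hV, hnV⟩ := hnU
    have hVA : Disjoint V A := hclW.mono_left ((hprop V hV).2.2.1.trans subset_closure)
    have hO : f ⁻¹' (q A '' V) ∈ 𝓝 k :=
      ((isOpen_image (hprop V hV).1 hVA).preimage hf).mem_nhds ⟨n, hnV, hfn⟩
    have hcase : ∀ U : 𝒰', x U ∈ f ⁻¹' (q A '' V) → U.1 = V := by
      rintro U ⟨v, hv, hfv⟩
      rw [← hft, q_eq_iff] at hfv
      rcases hfv with h | ⟨h, -⟩
      · exact (htU' U V hV (h ▸ hv)).symm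
      · exact absurd h (Set.disjoint_left.1 hVA hv)
    obtain ⟨_, ⟨hz1, U, rfl⟩, hz3⟩ := hk _ hO
    obtain ⟨_, ⟨⟨hz1', hz2'⟩, U', rfl⟩, hz3'⟩ := hk _ (inter_mem hO
      (isOpen_compl_singleton.mem_nhds (show k ∈ ({x U} : Set K)ᶜ from fun h => hz3 h.symm)))
    apply hz2'
    have : U' = U := Subtype.ext ((hcase U' hz1').trans (hcase U hz1).symm)
    rw [this]
    rfl
  · have hkN : k ∈ f ⁻¹' (q A '' N) := ⟨n, ⟨hSW hn, hnU⟩, hfn⟩
    obtain ⟨_, ⟨hz, U, rfl⟩, -⟩ := hk P (hP.mem_nhds (hΦP hkN))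
    exact Set.disjoint_left.1 hPQ hz (hxQ U)

/-- `FMQ(Y, A, D_Y)` is `k₂`-Hausdorff for regular Hausdorff `Y` without isolated points and closed
`A`. -/
theorem k2Hausdorff [T2Space Y] [RegularSpace Y] (hcrowd : ∀ y : Y, ¬ IsOpen ({y} : Set Y))
    (hA : IsClosed A) : IsK2Hausdorff.{u, v} (FMQ A) := by
  intro K _ _ _ f hf
  rw [← isOpen_compl_iff, isOpen_iff_mem_nhds]
  rintro ⟨a, b⟩ hab
  have hab : f a ≠ f b := hab
  obtain ⟨s, hs⟩ := q_surjective A (f a)
  obtain ⟨y, hy⟩ := q_surjective A (f b)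
  have hAd : Disjoint Aᶜ A := disjoint_compl_left
  by_cases hsA : s ∈ A
  · by_cases hyA : y ∈ A
    · exact absurd (hs ▸ hy ▸ (q_eq_iff A s y).2 (Or.inr ⟨hsA, hyA⟩)) hab
    · by_contra hcon
      refine key hcrowd hA hf a hsA hs.symm hyA ?_
      intro Q hQ haQ W hW hyW
      have h1 : IsOpen (f ⁻¹' (q A '' (W \ A))) :=
        (isOpen_image (hW.sdiff hA) (Set.disjoint_sdiff_left)).preimage hf
      have h2 : b ∈ f ⁻¹' (q A '' (W \ A)) := ⟨y, ⟨hyW, hyA⟩, hy⟩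
      by_contra hno
      push Not at hno
      apply hcon
      refine mem_of_superset ((hQ.prod h1).mem_nhds ⟨haQ, h2⟩) ?_
      rintro ⟨a', b'⟩ ⟨ha', hb'⟩ (heq : f a' = f b')
      apply hno a' ha'
      rw [heq]
      exact hb'
  · by_cases hyA : y ∈ A
    · by_contra hcon
      refine key hcrowd hA hf b hyA hy.symm hsA ?_
      intro Q hQ hbQ W hW hsW
      have h1 : IsOpen (f ⁻¹' (q A '' (W \ A))) :=
        (isOpen_image (hW.sdiff hA) (Set.disjoint_sdiff_left)).preimage hf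
      have h2 : a ∈ f ⁻¹' (q A '' (W \ A)) := ⟨s, ⟨hsW, hsA⟩, hs⟩
      by_contra hno
      push Not at hno
      apply hcon
      refine mem_of_superset ((h1.prod hQ).mem_nhds ⟨h2, hbQ⟩) ?_
      rintro ⟨a', b'⟩ ⟨ha', hb'⟩ (heq : f a' = f b')
      apply hno b' hb'
      rw [← heq]
      exact ha'
    · have hne : s ≠ y := by
        rintro rfl
        exact hab (hs ▸ hy)
      obtain ⟨U, V, hU, hV, hsU, hyV, hUV⟩ := t2_separation hne
      have h1 : IsOpen (f ⁻¹' (q A '' (U \ A))) :=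
        (isOpen_image (hU.sdiff hA) (Set.disjoint_sdiff_left)).preimage hf
      have h2 : IsOpen (f ⁻¹' (q A '' (V \ A))) :=
        (isOpen_image (hV.sdiff hA) (Set.disjoint_sdiff_left)).preimage hf
      refine mem_of_superset ((h1.prod h2).mem_nhds
        ⟨⟨s, ⟨hsU, hsA⟩, hs⟩, ⟨y, ⟨hyV, hyA⟩, hy⟩⟩) ?_
      rintro ⟨a', b'⟩ ⟨⟨u, hu, hfu⟩, ⟨v, hv, hfv⟩⟩ (heq : f a' = f b')
      rw [← hfu, ← hfv, q_eq_iff] at heq
      rcases heq with h | ⟨h, -⟩
      · exact Set.disjoint_left.1 hUV hu.1 (h ▸ hv.1)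
      · exact hu.2 h

/-- The space `βℕ ∖ ℕ`: the nonprincipal ultrafilters on `ℕ`, with the topology induced by the
Stone-Cech compactification `Ultrafilter ℕ` of the discrete space `ℕ`. -/
abbrev NStar : Type := {u : Ultrafilter ℕ // ∀ n : ℕ, u ≠ pure n}

theorem nstar_crowded (y : NStar) : ¬ IsOpen ({y} : Set NStar) := by
  intro hopen
  obtain ⟨O, hO, hOy⟩ := isOpen_induced_iff.1 hopen
  have hyO : y.1 ∈ O := by
    have : y ∈ Subtype.val ⁻¹' O := by rw [hOy]; rfl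
    exact this
  obtain ⟨_, ⟨s, rfl⟩, hys, hsO⟩ := ultrafilterBasis_is_basis.exists_subset_of_mem_open hyO hO
  have hys : s ∈ y.1 := hys
  have hsinf : s.Infinite := by
    intro hfin
    obtain ⟨n, -, hn⟩ := Ultrafilter.eq_pure_of_finite_mem hfin hys
    exact y.2 n hn
  let e := hsinf.natEmbedding
  have hkey : ∀ g : ℕ → ℕ, Function.Injective g →
      Ultrafilter.map (fun n => ((e (g n) : s) : ℕ)) (hyperfilter ℕ) = y.1 := by
    intro g hg
    have hinj : Function.Injective fun n => ((e (g n) : s) : ℕ) := fun a b hab =>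
      hg (e.injective (Subtype.ext hab))
    have h1 : ∀ n : ℕ, Ultrafilter.map (fun n => ((e (g n) : s) : ℕ)) (hyperfilter ℕ) ≠ pure n := by
      intro n hn
      have h2 : ({n} : Set ℕ) ∈
          Ultrafilter.map (fun n => ((e (g n) : s) : ℕ)) (hyperfilter ℕ) := by
        rw [hn]
        exact Ultrafilter.mem_pure.2 rfl
      rw [Ultrafilter.mem_map] at h2
      have h3 : ((fun n => ((e (g n) : s) : ℕ)) ⁻¹' {n}).Finite :=
        (Set.finite_singleton n).preimage hinj.injOn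
      exact notMem_hyperfilter_of_finite h3 h2
    have h2 : (⟨_, h1⟩ : NStar) ∈ Subtype.val ⁻¹' O := by
      apply hsO
      change s ∈ Ultrafilter.map (fun n => ((e (g n) : s) : ℕ)) (hyperfilter ℕ)
      rw [Ultrafilter.mem_map]
      exact Filter.mem_of_superset Filter.univ_mem fun n _ => (e (g n)).2
    rw [hOy] at h2
    exact congrArg Subtype.val h2
  have h1 := hkey (fun n => 2 * n) (fun a b h => by simpa using h)
  have h2 := hkey (fun n => 2 * n + 1) (fun a b h => by simpa using h)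
  rw [← h1] at h2
  have h3 : Set.range (fun n => ((e (2 * n) : s) : ℕ)) ∈
      Ultrafilter.map (fun n => ((e (2 * n) : s) : ℕ)) (hyperfilter ℕ) := by
    rw [Ultrafilter.mem_map]
    exact Filter.mem_of_superset Filter.univ_mem fun n _ => ⟨n, rfl⟩
  rw [← h2, Ultrafilter.mem_map] at h3
  have h4 : (fun n => ((e (2 * n + 1) : s) : ℕ)) ⁻¹' Set.range (fun n => ((e (2 * n) : s) : ℕ))
      = ∅ := by
    rw [Set.eq_empty_iff_forall_notMem]
    rintro n ⟨m, hm⟩
    have : 2 * m = 2 * n + 1 := e.injective (Subtype.ext hm)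
    omega
  rw [h4] at h3
  exact Ultrafilter.empty_notMem h3

/-- For every regular Hausdorff space `Y` without isolated points and every nonempty closed
`A ⊆ Y` the space `FMQ(Y, A, D_Y)` is `k₂`-Hausdorff. In particular this holds for
`Y = βℕ ∖ ℕ` and every nonempty finite `A ⊆ Y`. -/
theorem result :
    (∀ (Y : Type u) [TopologicalSpace Y] [RegularSpace Y] [T2Space Y],
      (∀ y : Y, ¬ IsOpen ({y} : Set Y)) → ∀ A : Set Y, A.Nonempty → IsClosed A →
        IsK2Hausdorff.{u, v} (FMQ A)) ∧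
    (∀ A : Set NStar, A.Nonempty → A.Finite → IsK2Hausdorff.{0, v} (FMQ A)) :=
  ⟨fun _ _ _ _ hY _ _ hA => k2Hausdorff hY hA,
    fun _ _ hA => k2Hausdorff nstar_crowded hA.isClosed⟩

end

end Pool.Agent.Results.MP_a8a70f_gt.K2Hausdorff
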